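import Mathlib

/-!
# Every orientation of every odd cycle is avoidable

We prove that for every odd `n ≥ 3`, every orientation of the cycle `C_n` is avoidable: every
digraph of large minimum outdegree contains a nonempty subdigraph of minimum outdegree at least `k`
with no copy of it.  In fact (`balanced`) for all `n, k` every digraph of large minimum outdegree
has a spanning subdigraph of minimum outdegree at least `k` in which every closed walk of length at
most `n` of the underlying graph uses as many forward as backward arcs.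

Outline.
* `key` (private or earlier): given a family of units `Y`, each with a large out-neighbourhood, and
  an owner map with bounded fibres, one can thin the out-neighbourhoods to size `k` such that the
  units in some `S ⊆ Y` have pairwise disjoint out-neighbourhoods and every other unit `y` only
  points to vertices that are earlier than its owner in some ranking.  Proof: take a smallest set
  `S` that percolates, and use Hall's theorem for `S`, the Hall condition following from minimality
  and a greedy hitting-set argument (`exists_hit`).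
* `unif` makes labels of the vertices on directed walks from `v` depend only on `v` and the time.
* `stage` adds one private label to all directed walks with `p`-periodic labels, by an infinite
  descent along such a walk.
* `final_step`: when all labels are private the walk follows a map backwards, and deleting at most
  one arc at each vertex destroys all of these walks.
* `kappa_one`, `kappa_all` and `balanced`: having no walks with short periods, a greedy labelling
  by `Z/q` of the (acyclic) part with periodic futures forces all short closed walks to be balanced.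
-/

set_option autoImplicit false

namespace Pool.Agent.Results.MP_fac9f6_co.OddCycles

open Finset

section Key

variable {V : Type} [Fintype V] [DecidableEq V]

omit [Fintype V] in
/-- Hitting lemma. -/
lemma exists_hit (Om M : Finset V) (N : V → Finset V) (L k K : ℕ)
    (hK : 16 * L * k ^ 2 + k ≤ K) (hL : 1 ≤ L) (hN : ∀ y ∈ Om, K ≤ (N y).card)
    (hNM : ∀ y ∈ Om, N y ⊆ M) (hM : M.card < k * Om.card) :
    ∃ Z ⊆ M, L * Z.card + (Om.filter (fun y => (N y ∩ Z).card < k)).card < Om.card := by
  classical
  have hk : 1 ≤ k := by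
    rcases Nat.eq_zero_or_pos k with h | h
    · subst h; simp at hM
    · exact h
  have hOm : 0 < Om.card := by
    rcases Nat.eq_zero_or_pos Om.card with h | h
    · rw [h] at hM; simp at hM
    · exact h
  let Phi : Finset V → ℕ := fun Z => 4 * L * k * Z.card + ∑ y ∈ Om, (k - (N y ∩ Z).card)
  obtain ⟨Z, hZM, hmin⟩ := Finset.exists_min_image M.powerset Phi ⟨∅, empty_mem_powerset M⟩
  rw [mem_powerset] at hZM
  refine ⟨Z, hZM, ?_⟩
  set U := Om.filter (fun y => (N y ∩ Z).card < k) with hU
  -- bound on Z
  have h1 : 4 * L * Z.card ≤ Om.card := by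
    have h := hmin ∅ (empty_mem_powerset M)
    have h0 : Phi ∅ = Om.card * k := by
      simp [Phi]
    rw [h0] at h
    have h2 : 4 * L * k * Z.card ≤ Om.card * k := le_trans (Nat.le_add_right _ _) h
    have h3 : k * (4 * L * Z.card) ≤ k * Om.card := by nlinarith
    exact Nat.le_of_mul_le_mul_left h3 hk
  -- bound on degrees
  have h2 : ∀ m ∈ M \ Z, (U.filter (fun y => m ∈ N y)).card ≤ 4 * L * k := by
    intro m hm
    rw [mem_sdiff] at hm
    have hsub : insert m Z ∈ M.powerset := by
      rw [mem_powerset]; exact insert_subset hm.1 hZM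
    have h := hmin _ hsub
    have hsum : ∑ y ∈ Om, (k - (N y ∩ insert m Z).card) + (U.filter (fun y => m ∈ N y)).card
        ≤ ∑ y ∈ Om, (k - (N y ∩ Z).card) := by
      have e : (U.filter (fun y => m ∈ N y)).card
          = ∑ y ∈ Om, (if (N y ∩ Z).card < k ∧ m ∈ N y then 1 else 0) := by
        rw [hU, filter_filter, card_filter]
      rw [e, ← sum_add_distrib]
      apply sum_le_sum
      intro y hy
      by_cases hc : (N y ∩ Z).card < k ∧ m ∈ N y
      · rw [if_pos hc]
        have : N y ∩ insert m Z = insert m (N y ∩ Z) := by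
          rw [inter_insert_of_mem hc.2]
        rw [this, card_insert_of_notMem (by simp [hm.2])]
        omega
      · rw [if_neg hc]
        have : (N y ∩ Z).card ≤ (N y ∩ insert m Z).card :=
          card_le_card (inter_subset_inter_left (subset_insert _ _))
        omega
    have hc : (insert m Z).card = Z.card + 1 := card_insert_of_notMem hm.2
    simp only [Phi] at h
    rw [hc] at h
    have : 4 * L * k * (Z.card + 1) = 4 * L * k * Z.card + 4 * L * k := by ring
    rw [this] at h
    omega
  -- double counting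
  have h3 : U.card * (16 * L * k ^ 2) ≤ (M \ Z).card * (4 * L * k) := by
    have e := Finset.sum_card_bipartiteAbove_eq_sum_card_bipartiteBelow (s := U) (t := M \ Z)
      (fun y m => m ∈ N y)
    have l1 : U.card * (16 * L * k ^ 2) ≤ ∑ y ∈ U, (bipartiteAbove (fun y m => m ∈ N y) (M \ Z) y).card := by
      rw [← smul_eq_mul]
      apply Finset.card_nsmul_le_sum
      intro y hy
      rw [hU, mem_filter] at hy
      have hy1 := hN y hy.1
      have hsub : N y \ Z ⊆ bipartiteAbove (fun y m => m ∈ N y) (M \ Z) y := by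
        intro m hm
        rw [mem_sdiff] at hm
        rw [mem_bipartiteAbove, mem_sdiff]
        exact ⟨⟨hNM y hy.1 hm.1, hm.2⟩, hm.1⟩
      have hc := card_le_card hsub
      have hc2 := card_sdiff_add_card_inter (N y) Z
      omega
    have l2 : ∑ m ∈ M \ Z, (bipartiteBelow (fun y m => m ∈ N y) U m).card ≤ (M \ Z).card * (4 * L * k) := by
      rw [← smul_eq_mul]
      apply Finset.sum_le_card_nsmul
      intro m hm
      exact h2 m hm
    omega
  have h4 : (M \ Z).card ≤ k * Om.card := le_trans (card_le_card sdiff_subset) hM.le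
  have h5 : 4 * U.card ≤ Om.card := by
    have h6 : U.card * (16 * L * k ^ 2) ≤ (k * Om.card) * (4 * L * k) :=
      le_trans h3 (Nat.mul_le_mul_right _ h4)
    have h7 : (4 * L * k ^ 2) * (4 * U.card) ≤ (4 * L * k ^ 2) * Om.card := by nlinarith
    have h8 : 0 < 4 * L * k ^ 2 := by positivity
    exact Nat.le_of_mul_le_mul_left h7 h8
  have h9 : 4 * (L * Z.card) ≤ Om.card := by nlinarith
  omega

/-- percolation from a set `S` of units -/
def perc (Y : Finset V) (own : V → V) (N : V → Finset V) (k : ℕ) (S : Finset V) : ℕ → Finset V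
  | 0 => ∅
  | i + 1 => univ.filter (fun v => ∀ y ∈ Y, own y = v →
      y ∈ S ∨ k ≤ (N y ∩ perc Y own N k S i).card)

lemma mem_perc_succ (Y : Finset V) (own : V → V) (N : V → Finset V) (k : ℕ) (S : Finset V) (i : ℕ)
    (v : V) : v ∈ perc Y own N k S (i + 1) ↔ ∀ y ∈ Y, own y = v →
      y ∈ S ∨ k ≤ (N y ∩ perc Y own N k S i).card := by
  simp [perc]

lemma perc_succ_mono (Y : Finset V) (own : V → V) (N : V → Finset V) (k : ℕ) (S : Finset V) (i : ℕ) :
    perc Y own N k S i ⊆ perc Y own N k S (i + 1) := by
  induction i with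
  | zero => simp [perc]
  | succ i ih =>
    intro v hv
    rw [mem_perc_succ] at hv ⊢
    intro y hy hv'
    rcases hv y hy hv' with h | h
    · exact Or.inl h
    · exact Or.inr (le_trans h (card_le_card (inter_subset_inter_left ih)))

lemma perc_mono (Y : Finset V) (own : V → V) (N : V → Finset V) (k : ℕ) (S : Finset V)
    {i j : ℕ} (hij : i ≤ j) : perc Y own N k S i ⊆ perc Y own N k S j := by
  induction j, hij using Nat.le_induction with
  | base => exact Subset.refl _
  | succ j _ ih => exact ih.trans (perc_succ_mono _ _ _ _ _ _)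

/-- Key lemma: private or earlier. -/
theorem key (Y : Finset V) (own : V → V) (L k : ℕ) (hL1 : 1 ≤ L)
    (hL : ∀ v, (Y.filter (fun y => own y = v)).card ≤ L) (N : V → Finset V)
    (hN : ∀ y ∈ Y, 16 * L * k ^ 2 + k ≤ (N y).card) :
    ∃ (S : Finset V) (N' : V → Finset V) (tau : V → ℕ), S ⊆ Y ∧
      (∀ y ∈ Y, N' y ⊆ N y ∧ (N' y).card = k) ∧
      (∀ y ∈ S, ∀ y' ∈ S, y ≠ y' → Disjoint (N' y) (N' y')) ∧
      (∀ y ∈ Y, y ∉ S → ∀ u ∈ N' y, tau u < tau (own y)) := by
  classical
  -- minimal good set
  let Good : Finset (Finset V) := Y.powerset.filter (fun S => ∀ v, ∃ i, v ∈ perc Y own N k S i)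
  have hYgood : Y ∈ Good := by
    simp only [Good, mem_filter, mem_powerset]
    refine ⟨Subset.refl _, fun v => ⟨1, ?_⟩⟩
    rw [mem_perc_succ]
    intro y hy _
    exact Or.inl hy
  obtain ⟨S, hS, hmin⟩ := Finset.exists_min_image Good card ⟨Y, hYgood⟩
  simp only [Good, mem_filter, mem_powerset] at hS hmin
  obtain ⟨hSY, hgood⟩ := hS
  -- Hall condition
  have hall : ∀ Om ⊆ S, k * Om.card ≤ (Om.biUnion N).card := by
    intro Om hOm
    by_contra hlt
    push Not at hlt
    obtain ⟨Z, hZM, hZ⟩ := exists_hit Om (Om.biUnion N) N L k (16 * L * k ^ 2 + k) le_rfl hL1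
      (fun y hy => hN y (hSY (hOm hy))) (fun y hy => subset_biUnion_of_mem N hy) hlt
    set bad := Om.filter (fun y => (N y ∩ Z).card < k) with hbad
    set S' : Finset V := (S \ Om) ∪ (Y.filter (fun y => own y ∈ Z)) ∪ bad with hS'
    have hS'Y : S' ⊆ Y := by
      intro y hy
      simp only [hS', mem_union, mem_sdiff, mem_filter, hbad] at hy
      rcases hy with (hy | hy) | hy
      · exact hSY hy.1
      · exact hy.1
      · exact hSY (hOm hy.1)
    have hcard : S'.card < S.card := by
      have c1 : (Y.filter (fun y => own y ∈ Z)).card ≤ L * Z.card := by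
        have : Y.filter (fun y => own y ∈ Z) ⊆ Z.biUnion (fun v => Y.filter (fun y => own y = v)) := by
          intro y hy
          rw [mem_filter] at hy
          rw [mem_biUnion]
          exact ⟨own y, hy.2, by simp [hy.1]⟩
        refine le_trans (card_le_card this) ?_
        refine le_trans card_biUnion_le ?_
        rw [mul_comm, ← smul_eq_mul]
        exact Finset.sum_le_card_nsmul _ _ _ (fun v _ => hL v)
      have c2 : (S \ Om).card + Om.card = S.card := by
        rw [card_sdiff_add_card_eq_card hOm]
      have c3 : S'.card ≤ (S \ Om).card + (Y.filter (fun y => own y ∈ Z)).card + bad.card :=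
        le_trans (card_union_le _ _) (Nat.add_le_add_right (card_union_le _ _) _)
      omega
    have hgood' : ∀ v, ∃ i, v ∈ perc Y own N k S' i := by
      have hZ1 : Z ⊆ perc Y own N k S' 1 := by
        intro z hz
        rw [mem_perc_succ]
        intro y hy hyz
        left
        simp only [hS', mem_union, mem_filter]
        left; right
        exact ⟨hy, hyz ▸ hz⟩
      have hstep : ∀ i, perc Y own N k S i ⊆ perc Y own N k S' (i + 1) := by
        intro i
        induction i with
        | zero => simp [perc]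
        | succ i ih =>
          intro v hv
          rw [mem_perc_succ] at hv ⊢
          intro y hy hyv
          rcases hv y hy hyv with h | h
          · by_cases hyO : y ∈ Om
            · by_cases hb : (N y ∩ Z).card < k
              · left
                simp only [hS', mem_union, hbad, mem_filter]
                right
                exact ⟨hyO, hb⟩
              · right
                push Not at hb
                refine le_trans hb (card_le_card (inter_subset_inter_left ?_))
                exact hZ1.trans (perc_mono _ _ _ _ _ (by omega))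
            · left
              simp only [hS', mem_union, mem_sdiff]
              left; left
              exact ⟨h, hyO⟩
          · right
            exact le_trans h (card_le_card (inter_subset_inter_left ih))
      intro v
      obtain ⟨i, hi⟩ := hgood v
      exact ⟨i + 1, hstep i hi⟩
    have := hmin S' ⟨hS'Y, hgood'⟩
    omega
  -- private sets
  have hinj : ∃ f : (S × Fin k) → V, Function.Injective f ∧ ∀ x, f x ∈ N x.1.1 := by
    have := (Finset.all_card_le_biUnion_card_iff_exists_injective
      (fun x : (S × Fin k) => N x.1.1)).1 ?_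
    · exact this
    · intro s
      let Om : Finset V := s.image (fun x => x.1.1)
      have hOm : Om ⊆ S := by
        intro y hy
        simp only [Om, mem_image] at hy
        obtain ⟨x, _, rfl⟩ := hy
        exact x.1.2
      have e : s.biUnion (fun x : (S × Fin k) => N x.1.1) = Om.biUnion N := by
        ext u
        simp only [Om, mem_biUnion, mem_image]
        constructor
        · rintro ⟨x, hx, hu⟩
          exact ⟨x.1.1, ⟨x, hx, rfl⟩, hu⟩
        · rintro ⟨y, ⟨x, hx, rfl⟩, hu⟩
          exact ⟨x, hx, hu⟩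
      rw [e]
      refine le_trans ?_ (hall Om hOm)
      have : s.card ≤ k * (s.image (fun x : (S × Fin k) => x.1.1)).card := by
        apply Finset.card_le_mul_card_image
        intro y hy
        have : (s.filter (fun x => x.1.1 = y)).card ≤ (univ : Finset (Fin k)).card := by
          apply Finset.card_le_card_of_injOn (fun x => x.2) (fun _ _ => mem_coe.2 (mem_univ _))
          intro a ha b hb hab
          rw [mem_coe, mem_filter] at ha hb
          apply Prod.ext
          · apply Subtype.ext
            rw [ha.2, hb.2]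
          · exact hab
        simpa using this
      exact this
  obtain ⟨f, hfinj, hf⟩ := hinj
  let tau : V → ℕ := fun v => Nat.find (hgood v)
  have htau : ∀ v, v ∈ perc Y own N k S (tau v) := fun v => Nat.find_spec (hgood v)
  have htau' : ∀ v i, v ∈ perc Y own N k S i → tau v ≤ i := fun v i h => Nat.find_min' (hgood v) h
  have hex : ∀ y, ∃ T : Finset V, y ∈ Y → (T ⊆ N y ∧ T.card = k ∧
      ((hy : y ∈ S) → T = univ.image (fun j => f (⟨y, hy⟩, j))) ∧
      (y ∉ S → ∀ u ∈ T, tau u < tau (own y))) := by
    intro y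
    by_cases hy : y ∈ S
    · refine ⟨univ.image (fun j => f (⟨y, hy⟩, j)), fun _ => ⟨?_, ?_, fun _ => rfl, fun h => absurd hy h⟩⟩
      · intro u hu
        simp only [mem_image, mem_univ, true_and] at hu
        obtain ⟨j, rfl⟩ := hu
        exact hf (⟨y, hy⟩, j)
      · rw [card_image_of_injective]
        · simp
        · intro a b hab
          have := hfinj hab
          exact (Prod.ext_iff.1 this).2
    · by_cases hyY : y ∈ Y
      · have h1 := htau (own y)
        have hpos : tau (own y) ≠ 0 := by
          intro h0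
          rw [h0] at h1
          simp [perc] at h1
        obtain ⟨m, hm⟩ := Nat.exists_eq_succ_of_ne_zero hpos
        rw [hm, Nat.succ_eq_add_one, mem_perc_succ] at h1
        rcases h1 y hyY rfl with h | h
        · exact absurd h hy
        · obtain ⟨T, hT, hTc⟩ := Finset.exists_subset_card_eq h
          refine ⟨T, fun _ => ⟨hT.trans inter_subset_left, hTc, fun h => absurd h hy, fun _ u hu => ?_⟩⟩
          have := htau' u m (mem_inter.1 (hT hu)).2
          omega
      · exact ⟨∅, fun h => absurd h hyY⟩
  choose N' hN' using hex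
  refine ⟨S, N', tau, hSY, fun y hy => ⟨(hN' y hy).1, (hN' y hy).2.1⟩, ?_, fun y hy hyS => (hN' y hy).2.2.2 hyS⟩
  intro y hy y' hy' hne
  rw [(hN' y (hSY hy)).2.2.1 hy, (hN' y' (hSY hy')).2.2.1 hy', Finset.disjoint_left]
  intro u hu hu'
  simp only [mem_image, mem_univ, true_and] at hu hu'
  obtain ⟨j, rfl⟩ := hu
  obtain ⟨j', hj'⟩ := hu'
  have := hfinj hj'
  apply hne
  have := (Prod.ext_iff.1 this).1
  exact (Subtype.ext_iff.1 this).symm

end Key


/-! ### Uniform futures -/

section Unif

variable {V : Type} {L : Type} [Fintype L] [DecidableEq L]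

lemma unif_step (N : V → Finset V) (f : V → L) (d : ℕ)
    (hN : ∀ v, d * Fintype.card L ≤ (N v).card) :
    ∃ (N' : V → Finset V) (g : V → L), (∀ v, N' v ⊆ N v) ∧ (∀ v, d ≤ (N' v).card) ∧
      ∀ v, ∀ u ∈ N' v, f u = g v := by
  classical
  have h : ∀ v, ∃ a : L, d ≤ ((N v).filter (fun u => f u = a)).card := by
    intro v
    obtain ⟨a, _, ha⟩ := Finset.exists_le_card_fiber_of_mul_le_card_of_maps_to
      (s := N v) (t := (univ : Finset L)) (f := f) (n := d) (fun _ _ => mem_univ _)
      ⟨f v, mem_univ _⟩ (by rw [card_univ, mul_comm]; exact hN v)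
    exact ⟨a, ha⟩
  choose g hg using h
  refine ⟨fun v => (N v).filter (fun u => f u = g v), g, fun v => filter_subset _ _, hg, ?_⟩
  intro v u hu
  exact (mem_filter.1 hu).2

lemma unif (t : ℕ) : ∀ (d : ℕ) (N : V → Finset V) (lam : V → L),
    (∀ v, d * Fintype.card L ^ t ≤ (N v).card) →
    ∃ (N' : V → Finset V) (w : V → ℕ → L), (∀ v, N' v ⊆ N v) ∧ (∀ v, d ≤ (N' v).card) ∧
      (∀ v, w v 0 = lam v) ∧ ∀ i < t, ∀ v, ∀ u ∈ N' v, w v (i + 1) = w u i := by
  induction t with
  | zero =>
    intro d N lam h
    refine ⟨N, fun v _ => lam v, fun v => Subset.refl _, fun v => ?_, fun v => rfl, ?_⟩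
    · have := h v
      simpa using this
    · intro i hi
      omega
  | succ t ih =>
    intro d N lam h
    obtain ⟨N1, w, h1, h2, h3, h4⟩ := ih (d * Fintype.card L) N lam (by
      intro v
      have := h v
      rw [pow_succ] at this
      calc d * Fintype.card L * Fintype.card L ^ t
          = d * (Fintype.card L ^ t * Fintype.card L) := by ring
        _ ≤ _ := this)
    obtain ⟨N2, g, g1, g2, g3⟩ := unif_step N1 (fun u => w u t) d h2
    refine ⟨N2, fun v i => if i ≤ t then w v i else g v, fun v => (g1 v).trans (h1 v), g2, ?_, ?_⟩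
    · intro v
      simp [h3]
    · intro i hi v u hu
      rcases Nat.lt_or_ge i t with hit | hit
      · have a1 : i + 1 ≤ t := hit
        have a2 : i ≤ t := by omega
        simp only [a1, a2, if_true]
        exact h4 i hit v u (g1 v hu)
      · have e : i = t := by omega
        subst e
        have a1 : ¬ (i + 1 ≤ i) := by omega
        simp only [a1, if_false, le_refl, if_true]
        exact (g3 v u hu).symm

omit [Fintype L] [DecidableEq L] in
lemma unif_walk {t : ℕ} {N : V → Finset V} {w : V → ℕ → L} {lam : V → L}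
    (h0 : ∀ v, w v 0 = lam v) (h1 : ∀ i < t, ∀ v, ∀ u ∈ N v, w v (i + 1) = w u i)
    {z : ℕ → V} (hz : ∀ i, z (i + 1) ∈ N (z i)) :
    ∀ i ≤ t, ∀ j, w (z j) i = lam (z (j + i)) := by
  intro i
  induction i with
  | zero => intro _ j; simp [h0]
  | succ i ih =>
    intro hi j
    rw [h1 i (by omega) (z j) (z (j + 1)) (hz j), ih (by omega) (j + 1)]
    congr 2
    ring

end Unif

/-! ### Periodic walks -/

section Stage

variable {V : Type} {L : Type}

/-- `z` is an infinite directed walk. -/
def Walk (N : V → Finset V) (z : ℕ → V) : Prop := ∀ i, z (i + 1) ∈ N (z i)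

/-- The labels along `z` are `p`-periodic. -/
def Per (lam : V → L) (p : ℕ) (z : ℕ → V) : Prop := ∀ i, lam (z (i + p)) = lam (z i)

/-- There is no infinite directed walk with `p`-periodic labels. -/
def NoPer (N : V → Finset V) (lam : V → L) (p : ℕ) : Prop :=
  ∀ z : ℕ → V, Walk N z → ¬ Per lam p z

/-- Vertices with the same private label have disjoint out-neighbourhoods. -/
def Priv (N : V → Finset V) (lam : V → L) (Pr : L → Prop) : Prop :=
  ∀ v v', v ≠ v' → lam v = lam v' → Pr (lam v) → Disjoint (N v) (N v')

/-- Every walk with `p`-periodic labels has at most `j` non-private phases. -/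
def Cnt (N : V → Finset V) (lam : V → L) (Pr : L → Prop) (p j : ℕ) : Prop :=
  ∀ z : ℕ → V, Walk N z → Per lam p z →
    ∀ F ⊆ range p, (∀ i ∈ F, ¬ Pr (lam (z i))) → F.card ≤ j

lemma Walk.mono {N N' : V → Finset V} (h : ∀ v, N' v ⊆ N v) {z : ℕ → V} (hz : Walk N' z) :
    Walk N z := fun i => h _ (hz i)

lemma NoPer.mono {N N' : V → Finset V} (h : ∀ v, N' v ⊆ N v) {lam : V → L} {p : ℕ}
    (hN : NoPer N lam p) : NoPer N' lam p := fun z hz hp => hN z (hz.mono h) hp

/-- the parent function -/
lemma exists_parent (N : V → Finset V) (lam : V → L) (Pr : L → Prop) (hP : Priv N lam Pr)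
    (w : V → L) :
    ∃ g : V → V, (∀ v u, u ∈ N v → Pr (lam v) → w u = lam v → g u = v) ∧
      (∀ u, (∀ v, u ∈ N v → Pr (lam v) → w u ≠ lam v) → g u = u) ∧
      (∀ u, g u ≠ u → u ∈ N (g u) ∧ Pr (lam (g u)) ∧ w u = lam (g u)) := by
  classical
  have huniq : ∀ u v v', u ∈ N v → Pr (lam v) → w u = lam v → u ∈ N v' → Pr (lam v') →
      w u = lam v' → v = v' := by
    intro u v v' h1 h2 h3 h4 _ h6
    by_contra hne
    exact (Finset.disjoint_left.1 (hP v v' hne (h3 ▸ h6) h2)) h1 h4
  let g : V → V := fun u =>
    if h : ∃ v, u ∈ N v ∧ Pr (lam v) ∧ w u = lam v then h.choose else u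
  refine ⟨g, ?_, ?_, ?_⟩
  · intro v u h1 h2 h3
    have h : ∃ v, u ∈ N v ∧ Pr (lam v) ∧ w u = lam v := ⟨v, h1, h2, h3⟩
    simp only [g, dif_pos h]
    exact huniq u _ _ h.choose_spec.1 h.choose_spec.2.1 h.choose_spec.2.2 h1 h2 h3
  · intro u hu
    have h : ¬ ∃ v, u ∈ N v ∧ Pr (lam v) ∧ w u = lam v := by
      rintro ⟨v, h1, h2, h3⟩
      exact hu v h1 h2 h3
    simp only [g, dif_neg h]
  · intro u hu
    by_cases h : ∃ v, u ∈ N v ∧ Pr (lam v) ∧ w u = lam v
    · have e : g u = h.choose := by simp only [g, dif_pos h]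
      rw [e]
      exact h.choose_spec
    · exact absurd (by simp only [g, dif_neg h]) hu

lemma card_iter_fiber [Fintype V] [DecidableEq V] (g : V → V) (k : ℕ)
    (hg : ∀ x, (univ.filter (fun y => g y = x)).card ≤ k) (i : ℕ) :
    ∀ x, (univ.filter (fun y => g^[i] y = x)).card ≤ k ^ i := by
  induction i with
  | zero =>
    intro x
    have : (univ.filter (fun y : V => g^[0] y = x)) ⊆ {x} := by
      intro y hy
      rw [mem_filter] at hy
      rw [mem_singleton]
      exact hy.2
    simpa using card_le_card this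
  | succ i ih =>
    intro x
    have hsub : (univ.filter (fun y : V => g^[i + 1] y = x)) ⊆
        (univ.filter (fun y : V => g^[i] y = x)).biUnion (fun x' => univ.filter (fun y => g y = x')) := by
      intro y hy
      rw [mem_filter] at hy
      rw [mem_biUnion]
      refine ⟨g y, ?_, ?_⟩
      · rw [mem_filter]
        exact ⟨mem_univ _, hy.2⟩
      · rw [mem_filter]
        exact ⟨mem_univ _, rfl⟩
    refine le_trans (card_le_card hsub) (le_trans card_biUnion_le ?_)
    refine le_trans (Finset.sum_le_card_nsmul _ _ _ (fun v _ => hg v)) ?_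
    rw [smul_eq_mul, pow_succ]
    exact Nat.mul_le_mul_right _ (ih x)

/-- One stage: the number of non-private phases drops by one. -/
lemma stage (r q k : ℕ) : ∃ d : ℕ, ∀ (L : Type) [Fintype L] [DecidableEq L],
    Fintype.card L = q → ∀ (Pr : L → Prop) (V : Type) [Fintype V] [DecidableEq V]
    (N : V → Finset V) (lam : V → L) (j : ℕ), (∀ v, d ≤ (N v).card) → Priv N lam Pr →
    Cnt N lam Pr (r + 1) (j + 1) →
    ∃ (N' : V → Finset V) (lam' : V → L × Bool), (∀ v, N' v ⊆ N v) ∧ (∀ v, k ≤ (N' v).card) ∧
      Priv N' lam' (fun a => Pr a.1 ∨ a.2 = true) ∧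
      Cnt N' lam' (fun a => Pr a.1 ∨ a.2 = true) (r + 1) j := by
  classical
  let Lb := (k + 1) ^ r
  let k3 := 16 * Lb * k ^ 2 + k
  refine ⟨(2 * k3) * q ^ r, ?_⟩
  intro L _ _ hq Pr V _ _ N lam j hN hPriv hCnt
  obtain ⟨N2, w, hN2, hN2c, hw0, hw⟩ := unif r (2 * k3) N lam (by rw [hq]; exact hN)
  -- consistent or inconsistent
  have h3 : ∀ v, ∃ T : Finset V, T ⊆ N2 v ∧ k3 ≤ T.card ∧
      ((∀ u ∈ T, w u r = lam v) ∨ (∀ u ∈ T, w u r ≠ lam v)) := by
    intro v
    by_cases h : k3 ≤ ((N2 v).filter (fun u => w u r = lam v)).card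
    · exact ⟨_, filter_subset _ _, h, Or.inl (fun u hu => (mem_filter.1 hu).2)⟩
    · refine ⟨(N2 v).filter (fun u => ¬ w u r = lam v), filter_subset _ _, ?_,
        Or.inr (fun u hu => (mem_filter.1 hu).2)⟩
      have h1 := Finset.card_filter_add_card_filter_not (s := N2 v) (fun u => w u r = lam v)
      have h2 := hN2c v
      omega
  choose N3 hN3 hN3c hN3p using h3
  have h4 : ∀ v, ∃ T : Finset V, T ⊆ N3 v ∧ k ≤ T.card ∧ (Pr (lam v) → T.card = k) ∧
      (¬ Pr (lam v) → T = N3 v) := by
    intro v
    have hk : k ≤ (N3 v).card := le_trans (Nat.le_add_left _ _) (hN3c v)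
    by_cases h : Pr (lam v)
    · obtain ⟨T, hT, hTc⟩ := Finset.exists_subset_card_eq hk
      exact ⟨T, hT, hTc.ge, fun _ => hTc, fun h' => absurd h h'⟩
    · exact ⟨N3 v, Subset.refl _, hk, fun h' => absurd h' h, fun _ => rfl⟩
  choose N4 hN4 hN4c hN4p hN4n using h4
  have hN4N : ∀ v, N4 v ⊆ N v := fun v => (hN4 v).trans ((hN3 v).trans (hN2 v))
  have hPriv4 : Priv N4 lam Pr := by
    intro v v' hne he hp
    exact Finset.disjoint_of_subset_left (hN4N v)
      (Finset.disjoint_of_subset_right (hN4N v') (hPriv v v' hne he hp))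
  obtain ⟨g, hg1, hg2, hg3⟩ := exists_parent N4 lam Pr hPriv4 (fun u => w u r)
  -- fibres of the owner map
  have hfib : ∀ x, (univ.filter (fun y => g y = x)).card ≤ k + 1 := by
    intro x
    by_cases hx : Pr (lam x)
    · have hsub : (univ.filter (fun y => g y = x)) ⊆ insert x (N4 x) := by
        intro y hy
        rw [mem_filter] at hy
        rw [mem_insert]
        by_cases hyx : y = x
        · exact Or.inl hyx
        · right
          have := (hg3 y (by rw [hy.2]; exact fun h => hyx h.symm)).1
          rwa [hy.2] at this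
      refine le_trans (card_le_card hsub) (le_trans (card_insert_le _ _) ?_)
      rw [hN4p x hx]
    · have hsub : (univ.filter (fun y => g y = x)) ⊆ {x} := by
        intro y hy
        rw [mem_filter] at hy
        rw [mem_singleton]
        by_contra hyx
        have := (hg3 y (by rw [hy.2]; exact fun h => hyx h.symm)).2.1
        rw [hy.2] at this
        exact hx this
      refine le_trans (card_le_card hsub) ?_
      simp
  let own : V → V := g^[r]
  have hown : ∀ x, (univ.filter (fun y => own y = x)).card ≤ Lb := card_iter_fiber g (k + 1) hfib r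
  let Y : Finset V := univ.filter (fun y => ¬ Pr (lam y) ∧ ∀ u ∈ N4 y, w u r = lam y)
  have hYmem : ∀ y, y ∈ Y ↔ (¬ Pr (lam y) ∧ ∀ u ∈ N4 y, w u r = lam y) := by
    intro y
    simp only [Y, mem_filter, mem_univ, true_and]
  obtain ⟨S, N', tau, hSY, hN', hS, htau⟩ := key Y own Lb k (Nat.one_le_pow _ _ (by omega))
    (fun x => le_trans (card_le_card (filter_subset_filter _ (subset_univ _))) (hown x)) N4
    (fun y hy => by
      rw [hN4n y ((hYmem y).1 hy).1]
      exact hN3c y)
  let N5 : V → Finset V := fun y => if y ∈ Y then N' y else N4 y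
  have hN5 : ∀ v, N5 v ⊆ N4 v := by
    intro v
    by_cases h : v ∈ Y
    · simp only [N5, if_pos h]; exact (hN' v h).1
    · simp only [N5, if_neg h]; exact Subset.refl _
  let lam' : V → L × Bool := fun v => (lam v, decide (v ∈ S))
  refine ⟨N5, lam', fun v => (hN5 v).trans (hN4N v), ?_, ?_, ?_⟩
  · intro v
    by_cases h : v ∈ Y
    · simp only [N5, if_pos h]; exact (hN' v h).2.ge
    · simp only [N5, if_neg h]; exact hN4c v
  · intro v v' hne he hp
    have he1 : lam v = lam v' := (Prod.ext_iff.1 he).1
    have he2 : decide (v ∈ S) = decide (v' ∈ S) := (Prod.ext_iff.1 he).2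
    rcases hp with hp | hp
    · exact Finset.disjoint_of_subset_left (hN5 v)
        (Finset.disjoint_of_subset_right (hN5 v') (hPriv4 v v' hne he1 hp))
    · have hv : v ∈ S := by simpa [lam'] using hp
      have hv' : v' ∈ S := by
        have : decide (v ∈ S) = true := by simpa using hv
        rw [he2] at this
        simpa using this
      simp only [N5, if_pos (hSY hv), if_pos (hSY hv')]
      exact hS v hv v' hv' hne
  · intro z hz hper F hF hFp
    -- basic facts on the walk
    have hz4 : Walk N4 z := hz.mono hN5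
    have hz3 : Walk N3 z := hz4.mono hN4
    have hz2 : Walk N2 z := hz3.mono hN3
    have hper1 : Per lam (r + 1) z := fun i => (Prod.ext_iff.1 (hper i)).1
    have hper2 : ∀ i, (z (i + (r + 1)) ∈ S ↔ z i ∈ S) := by
      intro i
      have : decide (z (i + (r + 1)) ∈ S) = decide (z i ∈ S) := (Prod.ext_iff.1 (hper i)).2
      constructor
      · intro h
        have h' : decide (z (i + (r + 1)) ∈ S) = true := by simpa using h
        rw [this] at h'
        simpa using h'
      · intro h
        have h' : decide (z i ∈ S) = true := by simpa using h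
        rw [← this] at h'
        simpa using h'
    have hword := unif_walk hw0 hw hz2
    have hwr : ∀ i, w (z (i + 1)) r = lam (z i) := by
      intro i
      rw [hword r le_rfl (i + 1)]
      have := hper1 i
      rw [← this]
      congr 2
      ring
    have hcons : ∀ i, ∀ u ∈ N3 (z i), w u r = lam (z i) := by
      intro i
      rcases hN3p (z i) with h | h
      · exact h
      · exact absurd (hwr i) (h _ (hz3 i))
    have hunit : ∀ i, ¬ Pr (lam (z i)) → z i ∈ Y := by
      intro i hi
      rw [hYmem]
      exact ⟨hi, fun u hu => hcons i u (hN4 _ hu)⟩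
    have hgp : ∀ i, Pr (lam (z i)) → g (z (i + 1)) = z i := fun i hi => hg1 _ _ (hz4 i) hi (hwr i)
    have hgn : ∀ i, ¬ Pr (lam (z i)) → g (z (i + 1)) = z (i + 1) := by
      intro i hi
      apply hg2
      intro v _ hv he
      rw [hwr i] at he
      rw [← he] at hv
      exact hi hv
    have hcnt := hCnt z (hz4.mono hN4N) hper1
      ((range (r + 1)).filter (fun i => ¬ Pr (lam (z i)))) (filter_subset _ _)
      (fun i hi => (mem_filter.1 hi).2)
    by_contra hlt
    rw [not_le] at hlt
    have hsub : F ⊆ (range (r + 1)).filter (fun i => ¬ Pr (lam (z i))) := by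
      intro i hi
      rw [mem_filter]
      exact ⟨hF hi, fun h => hFp i hi (Or.inl h)⟩
    have heq := Finset.eq_of_subset_of_card_le hsub (by omega)
    have hnS0 : ∀ i < r + 1, ¬ Pr (lam (z i)) → z i ∉ S := by
      intro i hi hp hzS
      have : i ∈ (range (r + 1)).filter (fun i => ¬ Pr (lam (z i))) := by
        rw [mem_filter, mem_range]; exact ⟨hi, hp⟩
      rw [← heq] at this
      exact hFp i this (Or.inr (by simpa [lam'] using hzS))
    have hnS : ∀ i, ¬ Pr (lam (z i)) → z i ∉ S := by
      intro i
      induction i using Nat.strong_induction_on with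
      | _ i ih =>
        intro hp
        rcases Nat.lt_or_ge i (r + 1) with h | h
        · exact hnS0 i h hp
        · obtain ⟨i', rfl⟩ := Nat.exists_eq_add_of_le' h
          rw [hper2]
          apply ih i' (by omega)
          rwa [hper1 i'] at hp
    -- infinite descent
    have hdesc : ∀ n i, ¬ Pr (lam (z i)) → tau (z (i + 1)) = n → False := by
      intro n
      induction n using Nat.strong_induction_on with
      | _ n ih =>
        intro i hi hn
        have hex : ∃ l, i < l ∧ ¬ Pr (lam (z l)) := ⟨i + (r + 1), by omega, by rwa [hper1 i]⟩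
        let i' := Nat.find hex
        have hi' : i < i' ∧ ¬ Pr (lam (z i')) := Nat.find_spec hex
        have hi'le : i' ≤ i + (r + 1) := Nat.find_min' hex ⟨by omega, by rwa [hper1 i]⟩
        have hbetween : ∀ l, i < l → l < i' → Pr (lam (z l)) := by
          intro l h1 h2
          by_contra h
          exact Nat.find_min hex h2 ⟨h1, h⟩
        have hiter : ∀ m, m ≤ i' - i - 1 → g^[m] (z i') = z (i' - m) := by
          intro m
          induction m with
          | zero => intro _; rfl
          | succ m ihm =>
            intro hm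
            rw [Function.iterate_succ_apply', ihm (by omega)]
            have e : i' - m = (i' - (m + 1)) + 1 := by omega
            rw [e]
            exact hgp _ (hbetween _ (by omega) (by omega))
        have hfix : ∀ s, g^[s] (z (i + 1)) = z (i + 1) := by
          intro s
          induction s with
          | zero => rfl
          | succ s ihs => rw [Function.iterate_succ_apply', ihs, hgn i hi]
        have hown' : own (z i') = z (i + 1) := by
          have e : r = (r - (i' - i - 1)) + (i' - i - 1) := by omega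
          change g^[r] (z i') = z (i + 1)
          rw [e, Function.iterate_add_apply, hiter _ le_rfl]
          have e2 : i' - (i' - i - 1) = i + 1 := by omega
          rw [e2, hfix]
        have hu : z i' ∈ Y := hunit i' hi'.2
        have hlt' : tau (z (i' + 1)) < tau (own (z i')) := by
          apply htau (z i') hu (hnS i' hi'.2)
          have := hz i'
          simp only [N5, if_pos hu] at this
          exact this
        rw [hown'] at hlt'
        exact ih (tau (z (i' + 1))) (by omega) i' hi'.2 rfl
    have hne : ((range (r + 1)).filter (fun i => ¬ Pr (lam (z i)))).Nonempty := by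
      rw [← heq]
      rw [← Finset.card_pos]
      omega
    obtain ⟨i, hi⟩ := hne
    exact hdesc _ i (mem_filter.1 hi).2 rfl

/-- Iterating the stages. -/
lemma stages (r : ℕ) : ∀ s ≤ r + 1, ∃ (L : Type) (_ : Fintype L) (_ : DecidableEq L)
    (Pr : L → Prop), ∀ k : ℕ, ∃ d : ℕ, ∀ (V : Type) [Fintype V] [DecidableEq V]
    (N : V → Finset V), (∀ v, d ≤ (N v).card) →
    ∃ (N' : V → Finset V) (lam : V → L), (∀ v, N' v ⊆ N v) ∧ (∀ v, k ≤ (N' v).card) ∧
      Priv N' lam Pr ∧ Cnt N' lam Pr (r + 1) (r + 1 - s) := by
  intro s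
  induction s with
  | zero =>
    intro _
    refine ⟨Unit, inferInstance, inferInstance, fun _ => False, fun k => ⟨k, ?_⟩⟩
    intro V _ _ N hN
    refine ⟨N, fun _ => (), fun v => Subset.refl _, hN, ?_, ?_⟩
    · intro v v' _ _ h
      exact h.elim
    · intro z _ _ F hF _
      simpa using card_le_card hF
  | succ s ih =>
    intro hs
    obtain ⟨L, iL1, iL2, Pr, hL⟩ := ih (by omega)
    refine ⟨L × Bool, inferInstance, inferInstance, fun a => Pr a.1 ∨ a.2 = true, fun k => ?_⟩
    obtain ⟨d1, hd1⟩ := stage r (Fintype.card L) k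
    obtain ⟨d, hd⟩ := hL d1
    refine ⟨d, ?_⟩
    intro V _ _ N hN
    obtain ⟨N1, lam1, h1, h2, h3, h4⟩ := hd V N hN
    have e : r + 1 - s = (r + 1 - (s + 1)) + 1 := by omega
    rw [e] at h4
    obtain ⟨N2, lam2, g1, g2, g3, g4⟩ := hd1 L rfl Pr V N1 lam1 _ h2 h3 h4
    exact ⟨N2, lam2, fun v => (g1 v).trans (h1 v), g2, g3, g4⟩

/-- If all phases are private, delete at most one arc at every vertex. -/
lemma final_step (r q k : ℕ) : ∃ d : ℕ, ∀ (L : Type) [Fintype L] [DecidableEq L],
    Fintype.card L = q → ∀ (Pr : L → Prop) (V : Type) [Fintype V] [DecidableEq V]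
    (N : V → Finset V) (lam : V → L), (∀ v, d ≤ (N v).card) → Priv N lam Pr →
    Cnt N lam Pr (r + 1) 0 →
    ∃ (N' : V → Finset V), (∀ v, N' v ⊆ N v) ∧ (∀ v, k ≤ (N' v).card) ∧
      NoPer N' lam (r + 1) := by
  classical
  refine ⟨(k + 1) * q ^ r, ?_⟩
  intro L _ _ hq Pr V _ _ N lam hN hPriv hCnt
  obtain ⟨N2, w, hN2, hN2c, hw0, hw⟩ := unif r (k + 1) N lam (by rw [hq]; exact hN)
  have hPriv2 : Priv N2 lam Pr := by
    intro v v' hne he hp
    exact Finset.disjoint_of_subset_left (hN2 v)
      (Finset.disjoint_of_subset_right (hN2 v') (hPriv v v' hne he hp))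
  obtain ⟨g, hg1, _, _⟩ := exists_parent N2 lam Pr hPriv2 (fun u => w u r)
  let C : V → Finset V := fun v => (N2 v).filter (fun u => g u = v ∧ ∃ i, g^[i] v = u)
  have hC : ∀ v, (C v).card ≤ 1 := by
    intro v
    rw [Finset.card_le_one]
    intro a ha b hb
    simp only [C, mem_filter] at ha hb
    obtain ⟨_, ha1, i, hi⟩ := ha
    obtain ⟨_, hb1, j, hj⟩ := hb
    have hi' : g^[i + 1] v = v := by rw [Function.iterate_succ_apply', hi, ha1]
    have hj' : g^[j + 1] v = v := by rw [Function.iterate_succ_apply', hj, hb1]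
    have e1 : g^[(i + 1) * (j + 1) - 1] v = a := by
      have : (i + 1) * (j + 1) - 1 = i + (i + 1) * j := by
        have : (i + 1) * (j + 1) = (i + (i + 1) * j) + 1 := by ring
        omega
      rw [this, Function.iterate_add_apply, Function.iterate_mul, Function.iterate_fixed hi', hi]
    have e2 : g^[(i + 1) * (j + 1) - 1] v = b := by
      have : (i + 1) * (j + 1) - 1 = j + (j + 1) * i := by
        have : (i + 1) * (j + 1) = (j + (j + 1) * i) + 1 := by ring
        omega
      rw [this, Function.iterate_add_apply, Function.iterate_mul, Function.iterate_fixed hj', hj]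
    rw [← e1, ← e2]
  refine ⟨fun v => N2 v \ C v, fun v => sdiff_subset.trans (hN2 v), ?_, ?_⟩
  · intro v
    change k ≤ (N2 v \ C v).card
    have h1 := Finset.le_card_sdiff (C v) (N2 v)
    have h2 := hC v
    have h3 := hN2c v
    omega
  · intro z hz hper
    have hz2 : Walk N2 z := hz.mono (fun v => sdiff_subset)
    have hzN : Walk N z := hz2.mono hN2
    have hpr0 : ∀ i < r + 1, Pr (lam (z i)) := by
      intro i hi
      by_contra h
      have := hCnt z hzN hper {i} (by simpa using hi) (by
        intro i' hi'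
        rw [mem_singleton] at hi'
        rw [hi']; exact h)
      simp at this
    have hpr : ∀ i, Pr (lam (z i)) := by
      intro i
      induction i using Nat.strong_induction_on with
      | _ i ih =>
        rcases Nat.lt_or_ge i (r + 1) with h | h
        · exact hpr0 i h
        · obtain ⟨i', rfl⟩ := Nat.exists_eq_add_of_le' h
          rw [hper i']
          exact ih i' (by omega)
    have hword := unif_walk hw0 hw hz2
    have hwr : ∀ i, w (z (i + 1)) r = lam (z i) := by
      intro i
      rw [hword r le_rfl (i + 1)]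
      have := hper i
      rw [← this]
      congr 2
      ring
    have hg : ∀ i, g (z (i + 1)) = z i := fun i => hg1 _ _ (hz2 i) (hpr i) (hwr i)
    have hiter : ∀ m i, g^[m] (z (i + m)) = z i := by
      intro m
      induction m with
      | zero => intro i; rfl
      | succ m ih =>
        intro i
        rw [Function.iterate_succ_apply]
        have : g (z (i + (m + 1))) = z (i + m) := hg (i + m)
        rw [this, ih]
    obtain ⟨a, b, hab, he⟩ := Finite.exists_ne_map_eq_of_infinite z
    have key' : ∀ a b, a < b → z a = z b → False := by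
      intro a b hab he
      obtain ⟨m, rfl⟩ := Nat.exists_eq_add_of_lt hab
      have h1 : z (a + m + 1) ∈ N2 (z (a + m)) \ C (z (a + m)) := hz (a + m)
      rw [mem_sdiff] at h1
      apply h1.2
      simp only [C, mem_filter]
      refine ⟨h1.1, hg (a + m), m, ?_⟩
      rw [hiter m a, he]
    rcases Nat.lt_or_gt_of_ne hab with h | h
    · exact key' a b h he
    · exact key' b a h he.symm

/-- No `p`-periodic walks, for one `p`. -/
lemma noPer_one (r : ℕ) : ∃ (L : Type) (_ : Fintype L) (_ : DecidableEq L),
    ∀ k : ℕ, ∃ d : ℕ, ∀ (V : Type) [Fintype V] [DecidableEq V]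
    (N : V → Finset V), (∀ v, d ≤ (N v).card) →
    ∃ (N' : V → Finset V) (lam : V → L), (∀ v, N' v ⊆ N v) ∧ (∀ v, k ≤ (N' v).card) ∧
      NoPer N' lam (r + 1) := by
  obtain ⟨L, iL1, iL2, Pr, hL⟩ := stages r (r + 1) le_rfl
  refine ⟨L, iL1, iL2, fun k => ?_⟩
  obtain ⟨d1, hd1⟩ := final_step r (Fintype.card L) k
  obtain ⟨d, hd⟩ := hL d1
  refine ⟨d, ?_⟩
  intro V _ _ N hN
  obtain ⟨N1, lam, h1, h2, h3, h4⟩ := hd V N hN
  rw [Nat.sub_self] at h4
  obtain ⟨N2, g1, g2, g3⟩ := hd1 L rfl Pr V N1 lam h2 h3 h4
  exact ⟨N2, lam, fun v => (g1 v).trans (h1 v), g2, g3⟩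

/-- No `p`-periodic walks, for all `1 ≤ p ≤ n`. -/
lemma noPer_all (n : ℕ) : ∃ (L : Type) (_ : Fintype L) (_ : DecidableEq L),
    ∀ k : ℕ, ∃ d : ℕ, ∀ (V : Type) [Fintype V] [DecidableEq V]
    (N : V → Finset V), (∀ v, d ≤ (N v).card) →
    ∃ (N' : V → Finset V) (lam : V → L), (∀ v, N' v ⊆ N v) ∧ (∀ v, k ≤ (N' v).card) ∧
      ∀ p, 1 ≤ p → p ≤ n → NoPer N' lam p := by
  induction n with
  | zero =>
    refine ⟨Unit, inferInstance, inferInstance, fun k => ⟨k, ?_⟩⟩
    intro V _ _ N hN
    refine ⟨N, fun _ => (), fun v => Subset.refl _, hN, ?_⟩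
    intro p h1 h2
    omega
  | succ n ih =>
    obtain ⟨L1, i1, i1', h1⟩ := ih
    obtain ⟨L2, i2, i2', h2⟩ := noPer_one n
    refine ⟨L1 × L2, inferInstance, inferInstance, fun k => ?_⟩
    obtain ⟨d1, hd1⟩ := h1 k
    obtain ⟨d2, hd2⟩ := h2 d1
    refine ⟨d2, ?_⟩
    intro V _ _ N hN
    obtain ⟨N2, lam2, a1, a2, a3⟩ := hd2 V N hN
    obtain ⟨N1, lam1, b1, b2, b3⟩ := hd1 V N2 a2
    refine ⟨N1, fun v => (lam1 v, lam2 v), fun v => (b1 v).trans (a1 v), b2, ?_⟩
    intro p hp1 hp2 z hz hper
    rcases Nat.lt_or_ge n p with h | h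
    · have e : p = n + 1 := by omega
      subst e
      exact a3 z (hz.mono b1) (fun i => (Prod.ext_iff.1 (hper i)).2)
    · exact b3 p hp1 h z hz (fun i => (Prod.ext_iff.1 (hper i)).1)

end Stage

/-! ### Height labels -/

section Kappa

/-- Greedy labelling of an acyclic part by `Z/q`. -/
lemma kappa_one {V : Type} [Fintype V] [DecidableEq V] (N : V → Finset V) (X : V → Prop) (q k : ℕ)
    (hq : 0 < q) (hN : ∀ v, (q + 1) * k ≤ (N v).card)
    (hX : ∀ z : ℕ → V, Walk N z → ¬ ∀ i, X (z i)) :
    ∃ (N' : V → Finset V) (kap : V → ZMod q), (∀ v, N' v ⊆ N v) ∧ (∀ v, k ≤ (N' v).card) ∧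
      ∀ v, ∀ u ∈ N' v, X v → X u → kap v = kap u + 1 := by
  classical
  have : NeZero q := ⟨hq.ne'⟩
  let r : V → V → Prop := fun u v => u ∈ N v ∧ X u ∧ X v
  have hwf : WellFounded r := by
    rw [wellFounded_iff_isEmpty_descending_chain]
    constructor
    rintro ⟨f, hf⟩
    exact hX f (fun i => (hf i).1) (fun i => (hf i).2.2)
  let kap : V → ZMod q := hwf.fix (fun v rec =>
    if h : ∃ a : ZMod q, k ≤ ((N v).filter (fun u => ∃ hu : r u v, rec u hu = a)).card
    then h.choose + 1 else 0)
  have hkap : ∀ v, kap v = if h : ∃ a : ZMod q, k ≤ ((N v).filter (fun u => r u v ∧ kap u = a)).card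
      then h.choose + 1 else 0 := by
    intro v
    have := hwf.fix_eq (fun v (rec : ∀ y, r y v → ZMod q) =>
      if h : ∃ a : ZMod q, k ≤ ((N v).filter (fun u => ∃ hu : r u v, rec u hu = a)).card
      then h.choose + 1 else 0) v
    simp only [exists_prop] at this
    exact this
  have hex : ∀ v, ∃ T : Finset V, T ⊆ N v ∧ k ≤ T.card ∧ ∀ u ∈ T, r u v → kap v = kap u + 1 := by
    intro v
    by_cases h : ∃ a : ZMod q, k ≤ ((N v).filter (fun u => r u v ∧ kap u = a)).card
    · refine ⟨(N v).filter (fun u => r u v ∧ kap u = h.choose), filter_subset _ _, h.choose_spec, ?_⟩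
      intro u hu _
      rw [hkap v, dif_pos h, (mem_filter.1 hu).2.2]
    · refine ⟨(N v).filter (fun u => ¬ r u v), filter_subset _ _, ?_,
        fun u hu hr => absurd hr (mem_filter.1 hu).2⟩
      push Not at h
      have h1 : ((N v).filter (fun u => r u v)).card ≤ q * k := by
        have hsub : (N v).filter (fun u => r u v) ⊆
            (univ : Finset (ZMod q)).biUnion (fun a => (N v).filter (fun u => r u v ∧ kap u = a)) := by
          intro u hu
          rw [mem_filter] at hu
          simp only [mem_biUnion, mem_univ, true_and, mem_filter]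
          exact ⟨kap u, hu.1, hu.2, rfl⟩
        refine le_trans (card_le_card hsub) (le_trans card_biUnion_le ?_)
        refine le_trans (Finset.sum_le_card_nsmul _ _ k (fun a _ => (h a).le)) ?_
        rw [card_univ, ZMod.card, smul_eq_mul]
      have h2 := Finset.card_filter_add_card_filter_not (s := N v) (fun u => r u v)
      have h3 := hN v
      have h4 : (q + 1) * k = q * k + k := by ring
      omega
  choose N' h1 h2 h3 using hex
  exact ⟨N', kap, h1, h2, fun v u hu hv hu' => h3 v u hu ⟨h1 v hu, hu', hv⟩⟩

lemma kappa_all {V : Type} [Fintype V] [DecidableEq V] (X : ℕ → V → Prop) (q : ℕ) (hq : 0 < q)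
    (n : ℕ) : ∀ (k : ℕ) (N : V → Finset V), (∀ v, (q + 1) ^ n * k ≤ (N v).card) →
    (∀ p, 1 ≤ p → p ≤ n → ∀ z : ℕ → V, Walk N z → ¬ ∀ i, X p (z i)) →
    ∃ (N' : V → Finset V) (kap : ℕ → V → ZMod q), (∀ v, N' v ⊆ N v) ∧ (∀ v, k ≤ (N' v).card) ∧
      ∀ p, 1 ≤ p → p ≤ n → ∀ v, ∀ u ∈ N' v, X p v → X p u → kap p v = kap p u + 1 := by
  induction n with
  | zero =>
    intro k N hN _
    refine ⟨N, fun _ _ => 0, fun v => Subset.refl _, fun v => ?_, ?_⟩
    · have := hN v
      simpa using this
    · intro p h1 h2
      omega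
  | succ n ih =>
    intro k N hN hX
    obtain ⟨N1, kap1, a1, a2, a3⟩ := ih ((q + 1) * k) N (by
      intro v
      have := hN v
      calc (q + 1) ^ n * ((q + 1) * k) = (q + 1) ^ (n + 1) * k := by ring
        _ ≤ _ := this) (fun p h1 h2 => hX p h1 (by omega))
    obtain ⟨N2, kap2, b1, b2, b3⟩ := kappa_one N1 (X (n + 1)) q k hq a2
      (fun z hz => hX (n + 1) (by omega) le_rfl z (hz.mono a1))
    refine ⟨N2, fun p v => if p = n + 1 then kap2 v else kap1 p v, fun v => (b1 v).trans (a1 v),
      b2, ?_⟩
    intro p h1 h2 v u hu hv hu'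
    by_cases h : p = n + 1
    · subst h
      simp only [if_true]
      exact b3 v u hu hv hu'
    · simp only [h, if_false]
      exact a3 p h1 (by omega) v u (b1 v hu) hv hu'

end Kappa

/-! ### Closed walks in the underlying graph -/

/-- Net length of the first `m` steps (`true` is a forward step, `false` a backward step). -/
def ht (e : ℕ → Bool) (m : ℕ) : ℤ := ∑ i ∈ range m, (if e i = true then (1 : ℤ) else -1)

lemma ht_succ (e : ℕ → Bool) (m : ℕ) :
    ht e (m + 1) = ht e m + (if e m = true then (1 : ℤ) else -1) := by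
  simp [ht, sum_range_succ]

lemma ht_bound (e : ℕ → Bool) (m : ℕ) : -(m : ℤ) ≤ ht e m ∧ ht e m ≤ m := by
  induction m with
  | zero => simp [ht]
  | succ m ih =>
    rw [ht_succ]
    split_ifs <;> push_cast <;> constructor <;> linarith [ih.1, ih.2]

lemma ht_parity (e : ℕ → Bool) (m : ℕ) : (ht e m - m) % 2 = 0 := by
  induction m with
  | zero => simp [ht]
  | succ m ih =>
    rw [ht_succ]
    split_ifs <;> push_cast <;> omega

/-- Every digraph of large minimum outdegree has a spanning subdigraph of large minimum outdegree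
in which all short closed walks of the underlying graph are balanced. -/
theorem balanced (n k : ℕ) : ∃ d : ℕ, ∀ (V : Type) [Fintype V] [DecidableEq V]
    (N : V → Finset V), (∀ v, d ≤ (N v).card) →
    ∃ N' : V → Finset V, (∀ v, N' v ⊆ N v) ∧ (∀ v, k ≤ (N' v).card) ∧
      ∀ m ≤ n, ∀ (c : ℕ → V) (e : ℕ → Bool), c m = c 0 →
        (∀ i < m, (e i = true → c (i + 1) ∈ N' (c i)) ∧ (e i = false → c i ∈ N' (c (i + 1)))) →
        ht e m = 0 := by
  classical
  obtain ⟨L, iL1, iL2, hL⟩ := noPer_all n
  let L2 : Type := L × (Fin (n + 1) → ZMod (n + 1))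
  let t2 : ℕ := 4 * n + 1
  let K3 : ℕ := (k + 1) * Fintype.card L2 ^ t2
  let K2 : ℕ := (n + 1 + 1) ^ n * K3
  let K1 : ℕ := K2 * Fintype.card L ^ n
  obtain ⟨d, hd⟩ := hL K1
  refine ⟨d, ?_⟩
  intro V _ _ N hN
  obtain ⟨N1, lam, hN1, hN1c, hNoPer⟩ := hd V N hN
  obtain ⟨N2, w, hN2, hN2c, hw0, hw⟩ := unif n K2 N1 lam hN1c
  let X : ℕ → V → Prop := fun p v => ∀ i, i + p ≤ n → w v i = w v (i + p)
  obtain ⟨N3, kap, hN3, hN3c, hkap⟩ := kappa_all X (n + 1) (by omega) n K3 N2 hN2c (by
    intro p hp1 hp2 z hz hX
    apply hNoPer p hp1 hp2 z (hz.mono hN2)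
    intro i
    have h1 := unif_walk hw0 hw hz p hp2 i
    have h2 := unif_walk hw0 hw hz 0 (by omega) i
    have h3 := hX i 0 (by omega)
    rw [zero_add] at h3
    rw [← h1, ← h3, h2]
    rfl)
  let lab : V → L2 := fun v => (lam v, fun j => kap j v)
  obtain ⟨N4, W, hN4, hN4c, hW0, hW⟩ := unif t2 (k + 1) N3 lab hN3c
  refine ⟨N4, fun v => (hN4 v).trans ((hN3 v).trans ((hN2 v).trans (hN1 v))),
    fun v => le_trans (Nat.le_succ k) (hN4c v), ?_⟩
  intro m hm c e hc hstep
  by_contra hne
  -- words agree at equal heights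
  have hagree : ∀ H : ℕ, n ≤ H → H + n < t2 → ∀ i ≤ m,
      W (c i) ((H : ℤ) - ht e i).toNat = W (c 0) H := by
    intro H hH1 hH2 i
    induction i with
    | zero => intro _; simp [ht]
    | succ i ih =>
      intro hi
      rw [← ih (by omega)]
      have hb1 := ht_bound e i
      have hb2 := ht_bound e (i + 1)
      have hs := hstep i (by omega)
      rcases Bool.eq_false_or_eq_true (e i) with he | he
      · have hmem := hs.1 he
        have hh : ht e (i + 1) = ht e i + 1 := by rw [ht_succ, if_pos he]
        have e1 : ((H : ℤ) - ht e i).toNat = ((H : ℤ) - ht e (i + 1)).toNat + 1 := by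
          push_cast at hb2
          omega
        rw [e1]
        symm
        apply hW _ _ _ _ hmem
        push_cast at hb2
        omega
      · have hmem := hs.2 he
        have hh : ht e (i + 1) = ht e i - 1 := by
          rw [ht_succ, if_neg (by simp [he])]; ring
        have e1 : ((H : ℤ) - ht e (i + 1)).toNat = ((H : ℤ) - ht e i).toNat + 1 := by
          omega
        rw [e1]
        apply hW _ _ _ _ hmem
        omega
  obtain ⟨p, hp⟩ : ∃ p : ℕ, p = (ht e m).natAbs := ⟨_, rfl⟩
  have hb := ht_bound e m
  have hp1 : 1 ≤ p := by omega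
  have hp2 : p ≤ n := by omega
  have hperW : ∀ j, n ≤ j → j + p + n < t2 → W (c 0) (j + p) = W (c 0) j := by
    intro j hj1 hj2
    rcases lt_or_gt_of_ne hne with h | h
    · have h1 := hagree j hj1 (by omega) m le_rfl
      rw [hc] at h1
      have e1 : ((j : ℤ) - ht e m).toNat = j + p := by omega
      rw [e1] at h1
      exact h1
    · have h1 := hagree (j + p) (by omega) (by omega) m le_rfl
      rw [hc] at h1
      have e1 : (((j + p : ℕ) : ℤ) - ht e m).toNat = j := by push_cast; omega
      rw [e1] at h1
      exact h1.symm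
  -- a directed walk from `c 0`
  have hnext : ∀ v, ∃ u, u ∈ N4 v := by
    intro v
    have := hN4c v
    have h : 0 < (N4 v).card := by omega
    exact Finset.card_pos.1 h
  choose nxt hnxt using hnext
  let z : ℕ → V := fun i => nxt^[i] (c 0)
  have hz : Walk N4 z := by
    intro i
    change nxt^[i + 1] (c 0) ∈ N4 (nxt^[i] (c 0))
    rw [Function.iterate_succ_apply']
    exact hnxt _
  have hlab : ∀ i ≤ t2, W (c 0) i = lab (z i) := by
    intro i hi
    have := unif_walk hW0 hW hz i hi 0
    rw [zero_add] at this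
    exact this
  have hperL : ∀ j, n ≤ j → j + p + n < t2 → lab (z (j + p)) = lab (z j) := by
    intro j h1 h2
    rw [← hlab _ (by omega), ← hlab _ (by omega)]
    exact hperW j h1 h2
  have hz2 : Walk N2 z := (hz.mono hN4).mono hN3
  have hXz : ∀ j, n ≤ j → j ≤ 2 * n → X p (z j) := by
    intro j h1 h2 i hi
    rw [unif_walk hw0 hw hz2 i (by omega) j, unif_walk hw0 hw hz2 (i + p) hi j]
    have := hperL (j + i) (by omega) (by omega)
    have h3 : lam (z (j + i + p)) = lam (z (j + i)) := (Prod.ext_iff.1 this).1
    rw [← h3, add_assoc]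
  have hdec : ∀ i ≤ p, kap p (z n) = kap p (z (n + i)) + (i : ZMod (n + 1)) := by
    intro i
    induction i with
    | zero => intro _; simp
    | succ i ih =>
      intro hi
      rw [ih (by omega)]
      have := hkap p hp1 hp2 (z (n + i)) (z (n + i + 1)) (hN4 _ (hz (n + i)))
        (hXz _ (by omega) (by omega)) (hXz _ (by omega) (by omega))
      rw [this, ← add_assoc n i 1]
      push_cast
      ring
  have h1 := hdec p le_rfl
  have h2 := hperL n le_rfl (by omega)
  have h3 : kap p (z (n + p)) = kap p (z n) := by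
    have := congrFun (Prod.ext_iff.1 h2).2 ⟨p, by omega⟩
    exact this
  rw [h3] at h1
  have h4 : ((p : ℕ) : ZMod (n + 1)) = 0 := by
    have : kap p (z n) + 0 = kap p (z n) + (p : ZMod (n + 1)) := by rw [add_zero]; exact h1
    exact (add_left_cancel this).symm
  rw [ZMod.natCast_eq_zero_iff] at h4
  have := Nat.le_of_dvd (by omega) h4
  omega

/-! ### The result -/

/-- The digraph with vertex type `W` and arc relation `F` is avoidable: for every `k` there is a
`d` such that every finite (loopless, nonempty) digraph `D` of minimum outdegree at least `d` has a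
nonempty subdigraph (vertex set `A`, arc relation `D'`) of minimum outdegree at least `k` with no
subdigraph isomorphic to `F`. -/
def Avoidable {W : Type} (F : W → W → Prop) : Prop :=
  ∀ k : ℕ, ∃ d : ℕ, ∀ (V : Type) [Finite V] [Nonempty V] (D : V → V → Prop),
    (∀ v, ¬ D v v) → (∀ v, d ≤ {w | D v w}.ncard) →
    ∃ (A : Set V) (D' : V → V → Prop), A.Nonempty ∧
      (∀ u v, D' u v → u ∈ A ∧ v ∈ A ∧ D u v) ∧
      (∀ v ∈ A, k ≤ {w | D' v w}.ncard) ∧
      ¬ ∃ f : W → V, Function.Injective f ∧ (∀ a, f a ∈ A) ∧ ∀ a b, F a b → D' (f a) (f b)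

/-- `F` is an orientation of the cycle `C_n` (`n ≥ 3`) with vertex set `ZMod n`: all arcs join
consecutive vertices, and for every edge exactly one of its two directions is an arc. -/
def IsOrientationOfCycle (n : ℕ) (F : ZMod n → ZMod n → Prop) : Prop :=
  (∀ a b, F a b → b = a + 1 ∨ a = b + 1) ∧
  ∀ a, (F a (a + 1) ∨ F (a + 1) a) ∧ ¬ (F a (a + 1) ∧ F (a + 1) a)

theorem result : ∀ n : ℕ, 3 ≤ n → Odd n → ∀ F : ZMod n → ZMod n → Prop,
    IsOrientationOfCycle n F → Avoidable F := by
  classical
  intro n _ hodd F hF k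
  obtain ⟨d, hd⟩ := balanced n k
  refine ⟨d, ?_⟩
  intro V _ hV D _ hdeg
  have : Fintype V := Fintype.ofFinite V
  obtain ⟨N', h1, h2, h3⟩ := hd V (fun v => univ.filter (fun w => D v w)) (by
    intro v
    have := hdeg v
    rwa [Set.ncard_eq_toFinset_card', Set.toFinset_ofPred] at this)
  refine ⟨Set.univ, fun u v => v ∈ N' u, Set.univ_nonempty, ?_, ?_, ?_⟩
  · intro u v huv
    exact ⟨Set.mem_univ _, Set.mem_univ _, (mem_filter.1 (h1 u huv)).2⟩
  · intro v _
    have := h2 v
    rw [Set.ncard_eq_toFinset_card', Set.toFinset_ofPred]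
    simpa using this
  · rintro ⟨f, _, _, hf⟩
    have hz := h3 n le_rfl (fun i => f (i : ZMod n)) (fun i => decide (F (i : ZMod n) ((i : ZMod n) + 1)))
      (by simp) (by
        intro i _
        constructor
        · intro h
          have h' : F (i : ZMod n) ((i : ZMod n) + 1) := by simpa using h
          have := hf _ _ h'
          simpa using this
        · intro h
          have h' : ¬ F (i : ZMod n) ((i : ZMod n) + 1) := by simpa using h
          have h'' := ((hF.2 (i : ZMod n)).1).resolve_left h'
          have := hf _ _ h''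
          simpa using this)
    have hpar := ht_parity (fun i => decide (F (i : ZMod n) ((i : ZMod n) + 1))) n
    rw [hz] at hpar
    obtain ⟨j, hj⟩ := hodd
    omega

end Pool.Agent.Results.MP_fac9f6_co.OddCycles
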